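import Pool.Agent.Helper19.Un.Stmts

set_option autoImplicit false

/-!
# Module EN of MP_8410ab_nt (unitary family): calculus on the Siegel domain
-/

namespace Pool.Agent.Helper19.Un

open MeasureTheory Topology Filter
open scoped ComplexConjugate

variable {m : ℕ}

theorem en_contDiff_hgt {n : WithTop ℕ∞} : ContDiff ℝ n (hgt : Pt m → ℝ) := by
  have h1 : ContDiff ℝ n fun p : Pt m => p.1.re := Complex.reCLM.contDiff.comp contDiff_fst
  have h2 : ContDiff ℝ n fun p : Pt m => ‖p.2‖ ^ 2 := contDiff_snd.norm_sq ℝ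
  exact ((contDiff_const.mul h1).add h2).neg

/-! ## functions supported in compact subsets of the Siegel domain -/

theorem en_continuous_of_SD {F : Type*} [TopologicalSpace F] [Zero F] {f : Pt m → F}
    {K : Set (Pt m)} (hK : IsClosed K) (hKU : K ⊆ SD m) (hf : ContinuousOn f (SD m))
    (h0 : ∀ p, p ∉ K → f p = 0) : Continuous f := by
  rw [continuous_iff_continuousAt]
  intro p
  by_cases hp : p ∈ SD m
  · exact hf.continuousAt (isOpen_SD.mem_nhds hp)
  · have hpK : p ∈ Kᶜ := fun h => hp (hKU h)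
    have hev : f =ᶠ[𝓝 p] fun _ => 0 := by
      filter_upwards [hK.isOpen_compl.mem_nhds hpK] with q hq
      exact h0 q hq
    exact continuousAt_const.congr hev.symm

theorem en_contDiff_of_SD {F : Type*} [NormedAddCommGroup F] [NormedSpace ℝ F]
    {n : WithTop ℕ∞} {f : Pt m → F} {K : Set (Pt m)}
    (hK : IsClosed K) (hKU : K ⊆ SD m) (hf : ContDiffOn ℝ n f (SD m))
    (h0 : ∀ p, p ∉ K → f p = 0) : ContDiff ℝ n f := by
  rw [contDiff_iff_contDiffAt]
  intro p
  by_cases hp : p ∈ SD m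
  · exact hf.contDiffAt (isOpen_SD.mem_nhds hp)
  · have hpK : p ∈ Kᶜ := fun h => hp (hKU h)
    have hev : f =ᶠ[𝓝 p] fun _ => 0 := by
      filter_upwards [hK.isOpen_compl.mem_nhds hpK] with q hq
      exact h0 q hq
    exact contDiffAt_const.congr_of_eventuallyEq hev

theorem en_locfin : IsFiniteMeasureOnCompacts (volume : Measure (Pt m)) := by
  infer_instance

theorem en_integrable_vol {F : Type*} [NormedAddCommGroup F] {f : Pt m → F} {K : Set (Pt m)}
    (hK : IsCompact K) (hf : Continuous f) (h0 : ∀ p, p ∉ K → f p = 0) :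
    Integrable f (volume : Measure (Pt m)) := by
  have := en_locfin (m := m)
  exact hf.integrable_of_hasCompactSupport (HasCompactSupport.intro hK h0)

theorem en_measurable_weight :
    Measurable fun p : Pt m => ENNReal.ofReal ((hgt p ^ (m + 2))⁻¹) :=
  ((measurable_hgt.pow_const (m + 2)).inv).ennreal_ofReal

theorem en_integrable_hyp {F : Type*} [NormedAddCommGroup F] [NormedSpace ℝ F] {f : Pt m → F}
    {K : Set (Pt m)} (hK : IsCompact K) (hKU : K ⊆ SD m) (hf : ContinuousOn f (SD m))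
    (h0 : ∀ p, p ∉ K → f p = 0) : Integrable f (hyp m) := by
  unfold hyp
  rw [integrable_withDensity_iff_integrable_smul' en_measurable_weight
    (Filter.Eventually.of_forall fun _ => ENNReal.ofReal_lt_top)]
  have hc : Continuous fun p : Pt m => ((hgt p ^ (m + 2))⁻¹ : ℝ) • f p := by
    refine en_continuous_of_SD hK.isClosed hKU ?_ fun p hp => by rw [h0 p hp, smul_zero]
    refine ContinuousOn.smul ?_ hf
    refine ContinuousOn.inv₀ (continuous_hgt.pow (m + 2)).continuousOn fun p hp => ?_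
    have hp' : (0 : ℝ) < hgt p := hp
    positivity
  have hi : Integrable (fun p : Pt m => ((hgt p ^ (m + 2))⁻¹ : ℝ) • f p)
      (volume.restrict (SD m)) :=
    (en_integrable_vol hK hc fun p hp => by rw [h0 p hp, smul_zero]).restrict
  refine (integrable_congr ?_).mpr hi
  rw [Filter.EventuallyEq, ae_restrict_iff' isOpen_SD.measurableSet]
  refine Filter.Eventually.of_forall fun p hp => ?_
  have hp' : (0 : ℝ) < hgt p := hp
  rw [ENNReal.toReal_ofReal (by positivity)]

/-! ## continuity of the partial derivatives -/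

/-- the horizontal vector fields -/
noncomputable def en_vX (k : Fin m) (p : Pt m) : Pt m := (-conj (p.2 k), ek k)
noncomputable def en_vY (k : Fin m) (p : Pt m) : Pt m :=
  (-(Complex.I * conj (p.2 k)), Complex.I • ek k)

theorem en_XX_eq (k : Fin m) (f : Pt m → ℂ) (p : Pt m) : XX k f p = pd (en_vX k p) f p := rfl
theorem en_YY_eq (k : Fin m) (f : Pt m → ℂ) (p : Pt m) : YY k f p = pd (en_vY k p) f p := rfl

theorem en_continuous_coord (k : Fin m) : Continuous fun p : Pt m => p.2 k :=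
  (EuclideanSpace.proj (𝕜 := ℂ) k).continuous.comp continuous_snd

theorem en_continuous_vX (k : Fin m) : Continuous (en_vX (m := m) k) :=
  ((Complex.continuous_conj.comp (en_continuous_coord k)).neg).prodMk continuous_const

theorem en_continuous_vY (k : Fin m) : Continuous (en_vY (m := m) k) :=
  ((continuous_const.mul (Complex.continuous_conj.comp (en_continuous_coord k))).neg).prodMk
    continuous_const

theorem en_continuousOn_pd (e : Pt m) {f : Pt m → ℂ} (hf : ContDiffOn ℝ 1 f (SD m)) :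
    ContinuousOn (pd e f) (SD m) := by
  have h := hf.continuousOn_fderiv_of_isOpen isOpen_SD le_rfl
  exact h.clm_apply continuousOn_const

theorem en_continuousOn_XX (k : Fin m) {f : Pt m → ℂ} (hf : ContDiffOn ℝ 1 f (SD m)) :
    ContinuousOn (XX k f) (SD m) := by
  have h := hf.continuousOn_fderiv_of_isOpen isOpen_SD le_rfl
  exact h.clm_apply (en_continuous_vX k).continuousOn

theorem en_continuousOn_YY (k : Fin m) {f : Pt m → ℂ} (hf : ContDiffOn ℝ 1 f (SD m)) :
    ContinuousOn (YY k f) (SD m) := by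
  have h := hf.continuousOn_fderiv_of_isOpen isOpen_SD le_rfl
  exact h.clm_apply (en_continuous_vY k).continuousOn

theorem en_differentiableAt_of {f : Pt m → ℂ} (hf : ContDiffOn ℝ 1 f (SD m)) {p : Pt m}
    (hp : p ∈ SD m) : DifferentiableAt ℝ f p :=
  (hf.contDiffAt (isOpen_SD.mem_nhds hp)).differentiableAt one_ne_zero

theorem en_pd_zero_off (e : Pt m) {φ : Pt m → ℂ} {p : Pt m} (hp : p ∉ tsupport φ) :
    pd e φ p = 0 := by
  unfold pd
  have : fderiv ℝ φ p = 0 := by
    by_contra hne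
    exact hp (tsupport_fderiv_subset ℝ (subset_tsupport _ hne))
  rw [this]; rfl

theorem en_pd_mul (e : Pt m) {f h : Pt m → ℂ} {p : Pt m} (hf : DifferentiableAt ℝ f p)
    (hh : DifferentiableAt ℝ h p) :
    pd e (fun q => f q * h q) p = f p * pd e h p + h p * pd e f p := by
  unfold pd
  have h1 : fderiv ℝ (fun q => f q * h q) p = _ := (hf.hasFDerivAt.mul hh.hasFDerivAt).fderiv
  rw [h1]
  simp [smul_eq_mul]

theorem en_integral_add3 {f g h : Pt m → ℂ} {μ : Measure (Pt m)} (hf : Integrable f μ)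
    (hg : Integrable g μ) (hh : Integrable h μ) :
    (∫ p, f p ∂μ) + (∫ p, g p ∂μ) + (∫ p, h p ∂μ) = ∫ p, (f p + g p + h p) ∂μ := by
  have e1 : ∫ p, (f p + g p) ∂μ = (∫ p, f p ∂μ) + (∫ p, g p ∂μ) := integral_add hf hg
  have e2 : ∫ p, ((f p + g p) + h p) ∂μ = (∫ p, (f p + g p) ∂μ) + (∫ p, h p ∂μ) :=
    integral_add (hf.add hg) hh
  rw [e2, e1]

/-! ## derivative of the height -/

theorem en_hasFDerivAt_hgt (p : Pt m) : HasFDerivAt (hgt : Pt m → ℝ)
    (-((2 : ℝ) • Complex.reCLM.comp (ContinuousLinearMap.fst ℝ ℂ (E m)) +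
      (2 : ℝ) • (innerSL ℝ p.2).comp (ContinuousLinearMap.snd ℝ ℂ (E m)))) p := by
  have h1 : HasFDerivAt (fun q : Pt m => 2 * q.1.re)
      ((2 : ℝ) • Complex.reCLM.comp (ContinuousLinearMap.fst ℝ ℂ (E m))) p := by
    have := (Complex.reCLM.comp (ContinuousLinearMap.fst ℝ ℂ (E m))).hasFDerivAt (x := p)
    exact this.const_mul 2
  have h2 : HasFDerivAt (fun q : Pt m => ‖q.2‖ ^ 2)
      ((2 : ℝ) • (innerSL ℝ p.2).comp (ContinuousLinearMap.snd ℝ ℂ (E m))) p := by
    have h3 : HasFDerivAt (fun q : Pt m => q.2) (ContinuousLinearMap.snd ℝ ℂ (E m)) p :=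
      hasFDerivAt_snd
    have h4 := h3.norm_sq
    refine h4.congr_fderiv ?_
    refine ContinuousLinearMap.ext fun v => ?_
    simp [two_smul]
  exact (h1.add h2).neg

theorem en_fd_hgt (p e : Pt m) :
    fderiv ℝ (hgt : Pt m → ℝ) p e = -(2 * e.1.re + 2 * inner ℝ p.2 e.2) := by
  rw [(en_hasFDerivAt_hgt p).fderiv]
  simp

theorem en_fd_hgt_one (p : Pt m) : fderiv ℝ (hgt : Pt m → ℝ) p (1, 0) = -2 := by
  rw [en_fd_hgt]; simp

theorem en_fd_hgt_I (p : Pt m) : fderiv ℝ (hgt : Pt m → ℝ) p (Complex.I, 0) = 0 := by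
  rw [en_fd_hgt]; simp

theorem en_inner_single (x : E m) (k : Fin m) (z : ℂ) :
    inner ℝ x (z • ek k) = (conj (x k) * z).re := by
  have h : inner ℝ x (z • ek k) = ∑ i, inner ℝ (x i) ((z • ek k : E m) i) := rfl
  rw [h, Finset.sum_eq_single k]
  · rw [Complex.inner]
    simp [ek]
    ring
  · intro i _ hi
    simp [ek, hi]
  · intro h; exact absurd (Finset.mem_univ _) h

theorem en_fd_hgt_X (k : Fin m) (p : Pt m) : fderiv ℝ (hgt : Pt m → ℝ) p (en_vX k p) = 0 := by
  rw [en_fd_hgt]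
  have h : inner ℝ p.2 (en_vX k p).2 = (conj (p.2 k) * 1).re := by
    rw [← en_inner_single, one_smul]; rfl
  rw [h]
  simp [en_vX]

theorem en_fd_hgt_Y (k : Fin m) (p : Pt m) : fderiv ℝ (hgt : Pt m → ℝ) p (en_vY k p) = 0 := by
  rw [en_fd_hgt]
  have h : inner ℝ p.2 (en_vY k p).2 = (conj (p.2 k) * Complex.I).re := en_inner_single _ _ _
  rw [h]
  simp [en_vY]

/-! ## the gradient product -/

theorem en_continuousOn_gdot {u v : Pt m → ℂ} (hu : ContDiffOn ℝ 1 u (SD m))
    (hv : ContDiffOn ℝ 1 v (SD m)) : ContinuousOn (gdot u v) (SD m) := by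
  have h : ContinuousOn (fun p : Pt m => (hgt p : ℂ)) (SD m) :=
    (Complex.continuous_ofReal.comp continuous_hgt).continuousOn
  exact ((h.pow 2).mul (((en_continuousOn_pd (1, 0) hu).mul (en_continuousOn_pd (1, 0) hv)).add
      ((en_continuousOn_pd (Complex.I, 0) hu).mul (en_continuousOn_pd (Complex.I, 0) hv)))).add
    (h.mul (continuousOn_finsetSum _ fun k _ =>
      ((en_continuousOn_XX k hu).mul (en_continuousOn_XX k hv)).add
      ((en_continuousOn_YY k hu).mul (en_continuousOn_YY k hv))))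

theorem en_pd_congr (e : Pt m) {f h : Pt m → ℂ} {p : Pt m} (hfh : f =ᶠ[𝓝 p] h) :
    pd e f p = pd e h p := by
  unfold pd; rw [hfh.fderiv_eq]

theorem en_gdot_congr {f h f' h' : Pt m → ℂ} {p : Pt m} (hf : f =ᶠ[𝓝 p] f')
    (hh : h =ᶠ[𝓝 p] h') : gdot f h p = gdot f' h' p := by
  unfold gdot
  simp only [en_XX_eq, en_YY_eq, en_pd_congr _ hf, en_pd_congr _ hh]

theorem en_gdot_zero_off {u φ : Pt m → ℂ} {p : Pt m} (hp : p ∉ tsupport φ) :
    gdot u φ p = 0 := by
  unfold gdot
  simp [en_XX_eq, en_YY_eq, en_pd_zero_off _ hp]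

theorem en_aesm_of {f : Pt m → ℂ} (hf : ContinuousOn f (SD m)) :
    AEStronglyMeasurable f (hyp m) := by
  have h : AEStronglyMeasurable f (volume.restrict (SD m)) :=
    hf.aestronglyMeasurable isOpen_SD.measurableSet
  unfold hyp
  exact h.mono_ac (withDensity_absolutelyContinuous _ _)

/-- complex version of a real function -/
noncomputable def en_cc (η : Pt m → ℝ) (p : Pt m) : ℂ := (η p : ℂ)

theorem en_contDiff_cc {n : WithTop ℕ∞} {η : Pt m → ℝ} (h : ContDiff ℝ n η) :
    ContDiff ℝ n (en_cc η) :=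
  Complex.ofRealCLM.contDiff.comp h

theorem en_contDiffOn_conj {n : WithTop ℕ∞} {f : Pt m → ℂ} {s : Set (Pt m)}
    (h : ContDiffOn ℝ n f s) : ContDiffOn ℝ n (fun p => (starRingEnd ℂ) (f p)) s :=
  Complex.conjCLE.contDiff.comp_contDiffOn h

theorem en_pd_conj (e : Pt m) {f : Pt m → ℂ} {p : Pt m} (hf : DifferentiableAt ℝ f p) :
    pd e (fun q => (starRingEnd ℂ) (f q)) p = (starRingEnd ℂ) (pd e f p) := by
  unfold pd
  have h := (Complex.conjCLE.toContinuousLinearMap.hasFDerivAt (x := f p)).comp p hf.hasFDerivAt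
  have h2 : fderiv ℝ (fun q => (starRingEnd ℂ) (f q)) p = _ := h.fderiv
  rw [h2]
  rfl

theorem en_gdot_mul {u f h : Pt m → ℂ} {p : Pt m} (hf : DifferentiableAt ℝ f p)
    (hh : DifferentiableAt ℝ h p) :
    gdot u (fun q => f q * h q) p = f p * gdot u h p + h p * gdot u f p := by
  unfold gdot
  simp only [en_XX_eq, en_YY_eq, en_pd_mul _ hf hh]
  simp only [mul_add, Finset.sum_add_distrib, Finset.mul_sum]
  ring_nf

theorem en_gdot_conj_self {u : Pt m → ℂ} {p : Pt m} (hu : DifferentiableAt ℝ u p) :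
    gdot u (fun q => (starRingEnd ℂ) (u q)) p = (gsq u p : ℂ) := by
  unfold gdot gsq
  simp only [en_XX_eq, en_YY_eq, en_pd_conj _ hu, Complex.mul_conj, Complex.normSq_eq_norm_sq]
  push_cast
  rfl

theorem en_smooth1 {M : AddSubgroup (V m)} {ι : Type} {u : ι → Pt m → ℂ} (hS : Sys M ι u)
    (i : ι) : ContDiffOn ℝ 1 (u i) (SD m) := (hS.smooth i).of_le (by norm_num)

theorem en_continuousOn_Gop {ι : Type} [Fintype ι] {u : ι → Pt m → ℂ}
    (hu : ∀ i, ContDiffOn ℝ 1 (u i) (SD m)) {v : Pt m → ℂ} (hv : ContDiffOn ℝ 1 v (SD m)) :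
    ContinuousOn (Gop u v) (SD m) := by
  unfold Gop
  refine continuousOn_finsetSum _ fun i _ => ?_
  exact (en_contDiffOn_conj (hu i)).continuousOn.mul (en_continuousOn_gdot (hu i) hv)

theorem en_Gop_mul {ι : Type} [Fintype ι] (u : ι → Pt m → ℂ) {f h : Pt m → ℂ} {p : Pt m}
    (hf : DifferentiableAt ℝ f p) (hh : DifferentiableAt ℝ h p) :
    Gop u (fun q => f q * h q) p = f p * Gop u h p + h p * Gop u f p := by
  unfold Gop
  rw [Finset.mul_sum, Finset.mul_sum, ← Finset.sum_add_distrib]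
  refine Finset.sum_congr rfl fun i _ => ?_
  rw [en_gdot_mul hf hh]
  ring

theorem en_Gop_off {ι : Type} [Fintype ι] (u : ι → Pt m → ℂ) {v : Pt m → ℂ} {p : Pt m}
    (h : p ∉ tsupport v) : Gop u v p = 0 := by
  unfold Gop
  refine Finset.sum_eq_zero fun i _ => ?_
  rw [en_gdot_zero_off h, mul_zero]

/-- a closed box in the Siegel domain -/
def en_box (m : ℕ) (C a ρ : ℝ) : Set (Pt m) :=
  {p | ‖p.2‖ ≤ C ∧ |p.1.im| ≤ C ∧ a ≤ hgt p ∧ hgt p ≤ ρ}

theorem en_isClosed_box (C a ρ : ℝ) : IsClosed (en_box m C a ρ) := by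
  have h1 : IsClosed {p : Pt m | ‖p.2‖ ≤ C} := isClosed_le continuous_snd.norm continuous_const
  have h2 : IsClosed {p : Pt m | |p.1.im| ≤ C} :=
    isClosed_le (Complex.continuous_im.comp continuous_fst).abs continuous_const
  have h3 : IsClosed {p : Pt m | a ≤ hgt p} := isClosed_le continuous_const continuous_hgt
  have h4 : IsClosed {p : Pt m | hgt p ≤ ρ} := isClosed_le continuous_hgt continuous_const
  exact h1.inter (h2.inter (h3.inter h4))

theorem en_isCompact_box (C a ρ : ℝ) : IsCompact (en_box m C a ρ) := by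
  refine Metric.isCompact_of_isClosed_isBounded (en_isClosed_box C a ρ) ?_
  refine (Metric.isBounded_closedBall (x := (0 : Pt m))
    (r := |C| + (|a| + |ρ| + C ^ 2))).subset ?_
  intro p hp
  obtain ⟨h1, h2, h3, h4⟩ := hp
  rw [mem_closedBall_zero_iff, Prod.norm_def, max_le_iff]
  have hC : 0 ≤ C := (norm_nonneg _).trans h1
  have hC' : |C| = C := abs_of_nonneg hC
  have h5 : ‖p.2‖ ^ 2 ≤ C ^ 2 := pow_le_pow_left₀ (norm_nonneg _) h1 2
  have h6 := sq_nonneg ‖p.2‖
  have h7 : |p.1.re| ≤ |a| + |ρ| + C ^ 2 := by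
    unfold hgt at h3 h4
    rw [abs_le]
    have g1 := le_abs_self ρ
    have g2 := abs_nonneg a
    have g3 := neg_abs_le a
    have g4 := abs_nonneg ρ
    have g5 := sq_nonneg C
    constructor <;> linarith
  constructor
  · refine (Complex.norm_le_abs_re_add_abs_im _).trans ?_
    rw [hC']; linarith
  · have : 0 ≤ |a| + |ρ| + C ^ 2 := by positivity
    rw [hC']; linarith

theorem en_box_subset {C a ρ : ℝ} (ha : 0 < a) : en_box m C a ρ ⊆ SD m := fun _ hp =>
  lt_of_lt_of_le ha hp.2.2.1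

theorem en_isClosed_Sieg (C a : ℝ) : IsClosed (Sieg m C a) := by
  have h1 : IsClosed {p : Pt m | ‖p.2‖ ≤ C} := isClosed_le continuous_snd.norm continuous_const
  have h2 : IsClosed {p : Pt m | |p.1.im| ≤ C} :=
    isClosed_le (Complex.continuous_im.comp continuous_fst).abs continuous_const
  have h3 : IsClosed {p : Pt m | a ≤ hgt p} := isClosed_le continuous_const continuous_hgt
  exact h1.inter (h2.inter h3)

theorem en_Gop_kap_off {M : AddSubgroup (V m)} {κ : Pt m → ℝ} {C a : ℝ} (hK : Kap M κ C a)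
    {ι : Type} [Fintype ι] (u : ι → Pt m → ℂ) {p : Pt m} (hp : p ∉ Sieg m C a) :
    Gop u (en_cc κ) p = 0 := by
  refine en_Gop_off u fun h => hp ?_
  refine closure_minimal (fun q hq => hK.supp q ?_) (en_isClosed_Sieg C a) h
  intro h0
  exact hq (by unfold en_cc; rw [h0]; simp)

end Pool.Agent.Helper19.Un
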